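import Pool.Agent.helper92.VC.All

/-!
# Debordering sums of constantly many read-once oblivious branching programs

Is the closure of `VP` contained in `VNP`? The answer is yes for all p-families which are
approximated over `k(ε)` by sums of a constant number of read-once oblivious algebraic branching
programs of polynomially bounded width, each program with its own order of the variables.

Let `k` be a field and let `F` be a p-family over `k`. Suppose that every `F_n` is the value at
`ε = 0` of a polynomial over `k(ε)` (with all coefficients defined at `ε = 0`) which is the sum of
`c + 1` read-once oblivious algebraic branching programs of width `w n`, with arbitrary constants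
of `k(ε)`, arbitrary degrees and arbitrary orders of the variables, where `w` is polynomially
bounded. Then every `F_n` is a sum of at most `(v + 1)^c` read-once oblivious algebraic branching
programs over `k` of width `(d + 1)^c (w n + 1)^(2^(c+1) - 1)`, where `v` is the number of
variables and `d` bounds the individual degrees of `F_n`; in particular the family `F` belongs
to `VP`, hence to `VNP`.

Proof: the program of the first summand is peeled off in its own order of the variables. By
elimination over the valuation ring `k[[ε]]`, among the candidates for the prefixes of a given
length there are at most `w` which generate, with coefficients in `k[[ε]]`, all the others as far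
as the first summand is concerned. The differences are integral and are sums of `c` programs.
-/

universe u

namespace Pool.Agent.Results.MP_dc9173_lc.SumOfROABPs

open Pool.Agent.helper92.VC

theorem result (k : Type u) [Field k] (c : ℕ) (F : Family k) (w : ℕ → ℕ)
    (hF : F.IsP) (hw : PolyBdd w)
    (happ : ∀ n, ∃ G : MvPolynomial (Fin (F.v n)) (RatFunc k),
      IsSumROABP (c + 1) (w n) G ∧ SpecializesTo G (F.f n)) :
    (∀ n d, (∀ i, (F.f n).degreeOf i ≤ d) →
      IsSumROABP ((F.v n + 1) ^ c) ((d + 1) ^ c * (w n + 1) ^ (2 ^ (c + 1) - 1)) (F.f n)) ∧
    F ∈ VP k ∧ F ∈ VNP k := by
  refine ⟨fun n d hd => ?_, (FIN_all k).2 (c + 1) F w hF hw happ⟩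
  obtain ⟨G, hG, hs⟩ := happ n
  exact (FIN_all k).1 (F.v n) c (w n) d (F.f n) G hd hG hs

end Pool.Agent.Results.MP_dc9173_lc.SumOfROABPs
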