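import Pool.Agent.helper66.WD.All

/-!
# Debordering sums of constantly many products of arbitrary powers of branching programs

Is the closure of `VP` contained in `VNP`? The answer is yes, over fields of characteristic `0`,
for all p-families which are approximated over `k(ε)` by linear combinations of a constant number
`c` of products of powers, with arbitrary exponents, of `c` read-once oblivious algebraic branching
programs of polynomially bounded width and of polynomially many local factors (arbitrary
polynomials in `c` branching programs of width `c`), all of them in one order of the variables,
which may depend on the member of the family. The limit has straight-line complexity at most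
`(n + w + deg + 2)^E`, where `E` depends only on `c`, and not on the exponents or the degree of the
approximating polynomial. Hence the family belongs to `VP` and to `VNP`.

Sums of univariate polynomials, in particular linear forms, are branching programs of width `2` in
every order, so the border of depth three circuits with `c` product gates is contained.

Proof (page `MP_dc9173_WD_PAGE_helper66.md`): the derivation `∑ x_l ∂/∂X_l` in the direction `x`
acts on a product of powers as multiplication with a logarithmic derivative. Elimination gives a
linear differential operator of order at most `c` which annihilates the approximating polynomial
and whose coefficients, normalised over the valuation ring `k[[ε]]`, have a nonzero limit. Along the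
lines through a generic point `α`, up to the order `d + c`, these coefficients satisfy Nisan's rank
condition with a polynomial bound, so they and their limits have polynomial complexity. The limit
`f` satisfies the limit equation along the lines through `α`, whose leading coefficient does not
vanish at a point `β` of the line; so the homogeneous components of `f` about `β` are computed from
the equation by a recursion.
-/

universe u

namespace Pool.Agent.Results.MP_dc9173_lc.SumsOfPowerProducts

open Pool.Agent.helper92.VC Pool.Agent.WD

theorem result (c : ℕ) : ∃ E : ℕ, ∀ (k : Type u) [Field k] [CharZero k],
    (∀ (n w : ℕ) (f : MvPolynomial (Fin n) k) (G : MvPolynomial (Fin n) (RatFunc k)),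
      IsSumPow c w G → SpecializesTo G f →
      complexity f ≤ (n + w + f.totalDegree + 2) ^ E) ∧
    ∀ (F : Family k) (w : ℕ → ℕ), F.IsP → PolyBdd w →
      (∀ n, ∃ G : MvPolynomial (Fin (F.v n)) (RatFunc k),
        IsSumPow c (w n) G ∧ SpecializesTo G (F.f n)) → F ∈ VP k ∧ F ∈ VNP k := by
  obtain ⟨E, hE⟩ := MBD_all c
  refine ⟨E, fun k _ _ => ⟨fun n w f G hG hs => ?_, (FIW_all k c).2⟩⟩
  exact le_trans (Nat.sInf_le (FIW_one MAI_all RTW_all k c n w f G hG hs))
    (hE n w f.totalDegree)

end Pool.Agent.Results.MP_dc9173_lc.SumsOfPowerProducts
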