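import Pool.Agent.helper92.VT.All

/-!
# The closure problem for sums of constantly many tree tensor networks

Is the closure of `VP` contained in `VNP`? The answer is yes for all p-families which are
approximated over `k(ε)` by sums of a constant number of tree tensor networks (circuits with a
unique parse tree) of polynomially bounded width, each network with its own tree.

A tree tensor network of width `w` is given by a binary tree in which every variable is the label
of exactly one leaf. At a leaf `x` there is a vector of `w` univariate polynomials in `x` (of
arbitrary degrees), at an inner node a vector of `w` linear combinations of the products of the
entries of the vectors of the two children, and the polynomial computed is a linear combination of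
the entries of the vector at the root. All the constants are arbitrary elements of `k(ε)`.

Proof: the first network is eliminated along its own tree. At every node, by elimination over
the valuation ring `k[[ε]]`, there are at most `w` representatives of the exponent vectors on the
variables below the node which generate, with coefficients in `k[[ε]]`, all the others as far as
the first network is concerned; the differences are integral and are sums of `c - 1` networks.
The errors of the nodes add up along the tree, and the selection of representatives is done by the
Boolean variables of an exponential sum.
-/

universe u

namespace Pool.Agent.Results.MP_dc9173_lc.TreeNetworks

open Pool.Agent.helper92.VC Pool.Agent.helper92.VT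

theorem result (k : Type u) [Field k] (c : ℕ) (F : Family k) (w : ℕ → ℕ)
    (hF : F.IsP) (hw : PolyBdd w)
    (happ : ∀ n, 0 < F.v n → ∃ G : MvPolynomial (Fin (F.v n)) (RatFunc k),
      IsSumTreeNet c (w n) G ∧ SpecializesTo G (F.f n)) :
    F ∈ VNP k :=
  FN2_all k c F w hF hw happ

end Pool.Agent.Results.MP_dc9173_lc.TreeNetworks
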